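import Mathlib

/-!
# Functionality of a hereditary class is governed by its prime graphs

For a graph `G` and a set `W` of vertices, a vertex `y ∈ W` is a function of a set `S ⊆ W` of other
vertices inside the induced subgraph `G[W]` if the adjacency of `y` to the vertices of `W` outside
`S ∪ {y}` is a Boolean function of the adjacencies to the vertices of `S`. The functionality of `G` is
the maximum over the nonempty sets `W` of the minimum over `y ∈ W` of the least `|S|`.

**Theorem.** If the prime graphs (with respect to modular decomposition) of a hereditary class `X` have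
functionality at most `k`, then all graphs of `X` have functionality at most `3 k + 2`.

*Proof.* Let `M` be a minimal module with at least two elements of a graph `G` of `X`; `G[M]` is prime.
If `|M| = 2` its elements are twins. Otherwise there are `y₁, y₂, y₃ ∈ M` and sets `S₁, S₂, S₃ ⊆ M` of at
most `k` vertices such that `y_i` is a function of `S_i` in `G[M \ {y_j : j < i}]`. Put
`T = S₁ ∪ S₂ ∪ S₃ ∪ {y₁, y₂, y₃}`. If `y_i` is not a function of `T \ {y_i}` in `G`, there is a vertex
`z_i ∈ M \ T` whose adjacency to all the vertices of `T \ {y_i}` is the same `t_i ∈ {0, 1}` but whose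
adjacency to `y_i` is different (the vertices outside `M` do not distinguish the vertices of `M`). If this
happens for all `i`, two of the `t_i` are equal, `t_i = t_j`, and `z_i`, `z_j` have the same adjacencies to
`S_j` but not to `y_j`, a contradiction.
-/

set_option autoImplicit false

namespace Pool.Agent.Results.MP_42f001_co.PrimeGraphsSuffice

/-- `A(u, v)` as a Boolean value -/
noncomputable def adj {V : Type} (G : SimpleGraph V) (u v : V) : Bool :=
  open Classical in decide (G.Adj u v)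

/-- In the subgraph of `G` induced on `W` the vertex `y ∈ W` is a function of the vertices of the finite
set `S ⊆ W`, `y ∉ S`: there is a Boolean function `f` such that `A(y, z) = f (A(x, z) : x ∈ S)` for all
`z ∈ W` different from `y` and from the elements of `S`. -/
def IsFunction {V : Type} (G : SimpleGraph V) (W : Set V) (y : V) (S : Finset V) : Prop :=
  y ∈ W ∧ (∀ x ∈ S, x ∈ W) ∧ y ∉ S ∧ ∃ f : (S → Bool) → Bool,
    ∀ z ∈ W, z ≠ y → z ∉ S → adj G y z = f (fun x => adj G x.1 z)

/-- the functionality of the vertex `y` in the subgraph induced on `W`: the least `k` such that `y` is a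
function of some `k` vertices -/
noncomputable def vertexFun {V : Type} (G : SimpleGraph V) (W : Set V) (y : V) : ℕ :=
  sInf {k | ∃ S : Finset V, S.card = k ∧ IsFunction G W y S}

/-- the minimum of the functionalities of the vertices of the subgraph induced on `W` -/
noncomputable def minFun {V : Type} (G : SimpleGraph V) (W : Set V) : ℕ :=
  sInf {k | ∃ y ∈ W, vertexFun G W y = k}

/-- The functionality of `G`: the maximum over all induced subgraphs `H` of the minimum of the
functionalities in `H` of the vertices of `H`. -/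
noncomputable def functionality {V : Type} (G : SimpleGraph V) : ℕ :=
  sSup {k | ∃ W : Set V, W.Nonempty ∧ minFun G W = k}

/-- every vertex outside `M` is adjacent to all or to none of the vertices of `M` -/
def IsModule {V : Type} (G : SimpleGraph V) (M : Set V) : Prop :=
  ∀ v ∉ M, (∀ m ∈ M, G.Adj v m) ∨ (∀ m ∈ M, ¬ G.Adj v m)

/-- all modules are trivial: empty, a singleton or the whole vertex set -/
def IsPrime {V : Type} (G : SimpleGraph V) : Prop :=
  ∀ M : Set V, IsModule G M → M = ∅ ∨ (∃ v, M = {v}) ∨ M = Set.univ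

/-- A class of graphs closed under isomorphism and under taking induced subgraphs (`H ↪g G` says that
`H` is isomorphic to an induced subgraph of `G`). -/
def Hereditary (X : (V : Type) → SimpleGraph V → Prop) : Prop :=
  ∀ (V W : Type) (G : SimpleGraph V) (H : SimpleGraph W), Nonempty (H ↪g G) → X V G → X W H

/-- the finite graphs of the class `P` have functionality at most `k` -/
def BoundedBy (k : ℕ) (P : (V : Type) → SimpleGraph V → Prop) : Prop :=
  ∀ (V : Type) [Finite V] (G : SimpleGraph V), P V G → functionality G ≤ k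

/-- two vertices with the same adjacencies to `S` have the same adjacency to `y` -/
def Cg {V : Type} (G : SimpleGraph V) (W : Set V) (y : V) (S : Finset V) : Prop :=
  y ∈ W ∧ (∀ x ∈ S, x ∈ W) ∧ y ∉ S ∧ ∀ z ∈ W, z ≠ y → z ∉ S → ∀ z' ∈ W, z' ≠ y → z' ∉ S →
    (∀ x ∈ S, (G.Adj x z ↔ G.Adj x z')) → G.Adj y z → G.Adj y z'

variable {V : Type}

lemma adj_eq {G : SimpleGraph V} {u v u' v' : V} :
    adj G u v = adj G u' v' ↔ (G.Adj u v ↔ G.Adj u' v') := by
  unfold adj
  exact decide_eq_decide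

lemma isFunction_iff (G : SimpleGraph V) (W : Set V) (y : V) (S : Finset V) :
    IsFunction G W y S ↔ Cg G W y S := by
  classical
  unfold IsFunction Cg
  refine and_congr_right fun h1 => and_congr_right fun h2 => and_congr_right fun h3 => ?_
  constructor
  · rintro ⟨f, hf⟩ z hz hzy hzS z' hz' hzy' hzS' hx h
    have e1 := hf z hz hzy hzS
    have e2 := hf z' hz' hzy' hzS'
    have e3 : (fun x : S => adj G x.1 z) = fun x : S => adj G x.1 z' := by
      funext x
      exact adj_eq.2 (hx x.1 x.2)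
    rw [e3, ← e2] at e1
    exact (adj_eq.1 e1).1 h
  · intro h
    refine ⟨fun b => decide (∃ z ∈ W, z ≠ y ∧ z ∉ S ∧ (fun x : S => adj G x.1 z) = b ∧
      G.Adj y z), fun z hz hzy hzS => ?_⟩
    unfold adj
    rw [decide_eq_decide]
    constructor
    · intro ha
      exact ⟨z, hz, hzy, hzS, rfl, ha⟩
    · rintro ⟨z', hz', hzy', hzS', he, ha⟩
      refine h z' hz' hzy' hzS' z hz hzy hzS (fun x hx => ?_) ha
      have := congrFun he ⟨x, hx⟩
      exact adj_eq.1 this

lemma exists_cg [Finite V] (G : SimpleGraph V) {W : Set V} {y : V} (hy : y ∈ W) :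
    ∃ S : Finset V, Cg G W y S := by
  classical
  refine ⟨(Set.toFinite (W \ {y})).toFinset, hy, fun x hx => ?_, ?_, ?_⟩
  · rw [Set.Finite.mem_toFinset] at hx
    exact hx.1
  · rw [Set.Finite.mem_toFinset]
    exact fun h => h.2 rfl
  · intro z hz hzy hzS
    rw [Set.Finite.mem_toFinset] at hzS
    exact absurd ⟨hz, hzy⟩ hzS

/-- the functionality in terms of the sets `S` -/
lemma functionality_le [Finite V] (G : SimpleGraph V) (k : ℕ) :
    functionality G ≤ k ↔
      ∀ W : Set V, W.Nonempty → ∃ y, ∃ S : Finset V, S.card ≤ k ∧ Cg G W y S := by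
  classical
  have hbdd : BddAbove {k | ∃ W : Set V, W.Nonempty ∧ minFun G W = k} := by
    apply Set.Finite.bddAbove
    refine (Set.finite_range (fun W : Set V => minFun G W)).subset ?_
    rintro k ⟨W, -, rfl⟩
    exact ⟨W, rfl⟩
  have hne : ∀ (W : Set V) (y : V), y ∈ W →
      {k | ∃ S : Finset V, S.card = k ∧ IsFunction G W y S}.Nonempty := by
    intro W y hy
    obtain ⟨S, hS⟩ := exists_cg G hy
    exact ⟨S.card, S, rfl, (isFunction_iff G W y S).2 hS⟩
  constructor
  · intro h W hW
    obtain ⟨y0, hy0⟩ := hW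
    have h1 : minFun G W ≤ k := (le_csSup hbdd ⟨W, ⟨y0, hy0⟩, rfl⟩).trans h
    have h2 : {k | ∃ y ∈ W, vertexFun G W y = k}.Nonempty := ⟨_, y0, hy0, rfl⟩
    obtain ⟨y, hy, h3⟩ := Nat.sInf_mem h2
    obtain ⟨S, hS, hS'⟩ := Nat.sInf_mem (hne W y hy)
    refine ⟨y, S, ?_, (isFunction_iff G W y S).1 hS'⟩
    have h4 : S.card = vertexFun G W y := hS
    rw [h4, h3]
    exact h1
  · intro h
    unfold functionality
    rcases Set.eq_empty_or_nonempty {k | ∃ W : Set V, W.Nonempty ∧ minFun G W = k} with h0 | h0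
    · rw [h0]
      simp
    · apply csSup_le h0
      rintro m ⟨W, hW, rfl⟩
      obtain ⟨y, S, hS, hC⟩ := h W hW
      have h1 : minFun G W ≤ vertexFun G W y := Nat.sInf_le ⟨y, hC.1, rfl⟩
      have h2 : vertexFun G W y ≤ S.card :=
        Nat.sInf_le ⟨S, rfl, (isFunction_iff G W y S).2 hC⟩
      exact h1.trans (h2.trans hS)

/-- transfer from an induced subgraph -/
lemma cg_induce (G : SimpleGraph V) (M : Set V) (W : Set M) (y : M) (S : Finset M)
    (h : Cg (G.induce M) W y S) :
    Cg G (Subtype.val '' W) y.1 (S.map (Function.Embedding.subtype _)) := by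
  obtain ⟨h1, h2, h3, h4⟩ := h
  have hmem : ∀ z : M, z.1 ∈ S.map (Function.Embedding.subtype _) ↔ z ∈ S := by
    intro z
    rw [Finset.mem_map]
    constructor
    · rintro ⟨w, hw, hwz⟩
      have : w = z := Subtype.ext hwz
      rwa [← this]
    · intro hz
      exact ⟨z, hz, rfl⟩
  refine ⟨⟨y, h1, rfl⟩, ?_, fun hy => h3 ((hmem y).1 hy), ?_⟩
  · intro x hx
    rw [Finset.mem_map] at hx
    obtain ⟨w, hw, rfl⟩ := hx
    exact ⟨w, h2 w hw, rfl⟩
  · rintro _ ⟨z, hz, rfl⟩ hzy hzS _ ⟨z', hz', rfl⟩ hzy' hzS' hx ha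
    have e1 : z ≠ y := fun h => hzy (congrArg Subtype.val h)
    have e2 : z' ≠ y := fun h => hzy' (congrArg Subtype.val h)
    refine h4 z hz e1 (fun h => hzS ((hmem z).2 h)) z' hz' e2 (fun h => hzS' ((hmem z').2 h))
      (fun x hxS => ?_) ha
    exact hx x.1 ((hmem x).2 hxS)

lemma card_map (M : Set V) (S : Finset M) :
    (S.map (Function.Embedding.subtype _)).card = S.card := Finset.card_map _

/-- the subgraph induced on a minimal module with at least two elements is prime -/
lemma prime_of_minimal (G : SimpleGraph V) {M : Set V} (hM : IsModule G M)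
    (hmin : ∀ N : Set V, IsModule G N → N.Nontrivial → N ⊆ M → N = M) : IsPrime (G.induce M) := by
  intro N hN
  rcases Set.subsingleton_or_nontrivial N with h | h
  · rcases h.eq_empty_or_singleton with h1 | h1
    · exact Or.inl h1
    · exact Or.inr (Or.inl h1)
  · right; right
    have h1 : IsModule G (Subtype.val '' N) := by
      intro v hv
      by_cases hvM : v ∈ M
      · have hvN : (⟨v, hvM⟩ : M) ∉ N := fun h => hv ⟨_, h, rfl⟩
        rcases hN ⟨v, hvM⟩ hvN with h2 | h2
        · left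
          rintro _ ⟨m, hm, rfl⟩
          exact h2 m hm
        · right
          rintro _ ⟨m, hm, rfl⟩
          exact h2 m hm
      · rcases hM v hvM with h2 | h2
        · left
          rintro _ ⟨m, -, rfl⟩
          exact h2 m.1 m.2
        · right
          rintro _ ⟨m, -, rfl⟩
          exact h2 m.1 m.2
    have h2 : Subtype.val '' N = M := by
      apply hmin _ h1 (h.image Subtype.val_injective)
      rintro _ ⟨m, -, rfl⟩
      exact m.2
    apply Set.eq_univ_of_forall
    intro m
    have h3 : m.1 ∈ Subtype.val '' N := by rw [h2]; exact m.2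
    obtain ⟨m', hm', he⟩ := h3
    have : m' = m := Subtype.ext he
    rwa [← this]

/-- **the three vertices** -/
lemma three [Finite V] (G : SimpleGraph V) {M : Set V} (hM : IsModule G M) (hM2 : M.Nontrivial)
    (k : ℕ) (hk : ∀ W : Set V, W ⊆ M → W.Nonempty →
      ∃ y, ∃ S : Finset V, S.card ≤ k ∧ Cg G W y S) :
    ∃ y, ∃ S : Finset V, S.card ≤ 3 * k + 2 ∧ Cg G Set.univ y S := by
  classical
  -- vertices outside `M` do not distinguish the vertices of `M`
  have hout : ∀ z ∉ M, ∀ u ∈ M, ∀ v ∈ M, (G.Adj u z ↔ G.Adj v z) := by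
    intro z hz u hu v hv
    rcases hM z hz with h | h
    · exact ⟨fun _ => (h v hv).symm, fun _ => (h u hu).symm⟩
    · exact ⟨fun h' => absurd h'.symm (h u hu), fun h' => absurd h'.symm (h v hv)⟩
  by_cases h3 : ∃ a ∈ M, ∃ b ∈ M, ∃ c ∈ M, a ≠ b ∧ a ≠ c ∧ b ≠ c
  · obtain ⟨a, ha, b, hb, c, hc, hab, hac, hbc⟩ := h3
    obtain ⟨y1, S1, hS1, hy1, hS1M, hyS1, hc1⟩ := hk M subset_rfl ⟨a, ha⟩
    obtain ⟨y2, S2, hS2, hy2, hS2M, hyS2, hc2⟩ := hk (M \ {y1}) Set.sdiff_subset (by
      by_cases h : a = y1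
      · exact ⟨b, hb, fun h' => hab (h.trans h'.symm)⟩
      · exact ⟨a, ha, h⟩)
    obtain ⟨y3, S3, hS3, hy3, hS3M, hyS3, hc3⟩ := hk (M \ {y1, y2})
      Set.sdiff_subset (by
        by_contra hne
        rw [Set.not_nonempty_iff_eq_empty, Set.sdiff_eq_empty] at hne
        have e1 := hne ha
        have e2 := hne hb
        have e3 := hne hc
        simp only [Set.mem_insert_iff, Set.mem_singleton_iff] at e1 e2 e3
        rcases e1 with e1 | e1 <;> rcases e2 with e2 | e2 <;> rcases e3 with e3 | e3 <;>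
          simp_all)
    have m1 : y1 ∈ M := hy1
    have m2 : y2 ∈ M := hy2.1
    have m3 : y3 ∈ M := hy3.1
    have n12 : y1 ≠ y2 := fun h => hy2.2 h.symm
    have n13 : y1 ≠ y3 := fun h => hy3.2 (Or.inl h.symm)
    have n23 : y2 ≠ y3 := fun h => hy3.2 (Or.inr h.symm)
    obtain ⟨T, hT⟩ : ∃ T : Finset V, T = S1 ∪ S2 ∪ S3 ∪ {y1, y2, y3} := ⟨_, rfl⟩
    have hTM : ∀ x ∈ T, x ∈ M := by
      intro x hx
      rw [hT] at hx
      simp only [Finset.mem_union, Finset.mem_insert, Finset.mem_singleton] at hx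
      rcases hx with ((hx | hx) | hx) | hx | hx | hx
      · exact hS1M x hx
      · exact (hS2M x hx).1
      · exact (hS3M x hx).1
      · rw [hx]; exact m1
      · rw [hx]; exact m2
      · rw [hx]; exact m3
    have hTc : T.card ≤ 3 * k + 3 := by
      rw [hT]
      have e1 := Finset.card_union_le (S1 ∪ S2 ∪ S3) {y1, y2, y3}
      have e2 := Finset.card_union_le (S1 ∪ S2) S3
      have e3 := Finset.card_union_le S1 S2
      have e4 : ({y1, y2, y3} : Finset V).card ≤ 3 := Finset.card_le_three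
      omega
    -- the failure at one of the vertices
    have hfail : ∀ y ∈ T, (∀ S : Finset V, S.card ≤ 3 * k + 2 → ¬ Cg G Set.univ y S) →
        ∀ u ∈ T, u ≠ y → ∀ S : Finset V, S ⊆ T → y ∉ S →
        (∀ z ∈ M, z ∉ T → ∀ z' ∈ M, z' ∉ T → (∀ x ∈ S, (G.Adj x z ↔ G.Adj x z')) →
          G.Adj y z → G.Adj y z') →
        ∃ z ∈ M, z ∉ T ∧ ∃ t : Prop, (∀ x ∈ T, x ≠ y → (G.Adj x z ↔ t)) ∧ ¬ (G.Adj y z ↔ t) := by
      intro y hyT hno u hu huy S hST hyS hcS
      have hyM := hTM y hyT
      have h1 : ¬ Cg G Set.univ y (T.erase y) := by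
        apply hno
        rw [Finset.card_erase_of_mem hyT]
        omega
      have h2 : ∃ z, z ∉ T ∧ ∃ z', z' ∉ T ∧ (∀ x ∈ T.erase y, (G.Adj x z ↔ G.Adj x z')) ∧
          G.Adj y z ∧ ¬ G.Adj y z' := by
        by_contra hcon
        apply h1
        refine ⟨Set.mem_univ _, fun _ _ => Set.mem_univ _, Finset.notMem_erase _ _, ?_⟩
        intro z _ hzy hzS z' _ hzy' hzS' hx ha
        by_contra hna
        apply hcon
        refine ⟨z, fun h => hzS (Finset.mem_erase.2 ⟨hzy, h⟩), z',
          fun h => hzS' (Finset.mem_erase.2 ⟨hzy', h⟩), hx, ha, hna⟩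
      obtain ⟨z, hz, z', hz', hx, ha, hna⟩ := h2
      have huM := hTM u hu
      have huE : u ∈ T.erase y := Finset.mem_erase.2 ⟨huy, hu⟩
      by_cases hzM : z ∈ M
      · by_cases hzM' : z' ∈ M
        · exfalso
          apply hna
          refine hcS z hzM hz z' hzM' hz' (fun x hxS => hx x ?_) ha
          exact Finset.mem_erase.2 ⟨fun h => hyS (h ▸ hxS), hST hxS⟩
        · refine ⟨z, hzM, hz, G.Adj y z', fun x hxT hxy => ?_, fun h => hna (h.1 ha)⟩
          rw [hx x (Finset.mem_erase.2 ⟨hxy, hxT⟩)]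
          exact hout z' hzM' x (hTM x hxT) y hyM
      · by_cases hzM' : z' ∈ M
        · refine ⟨z', hzM', hz', G.Adj y z, fun x hxT hxy => ?_, fun h => hna (h.2 ha)⟩
          rw [← hx x (Finset.mem_erase.2 ⟨hxy, hxT⟩)]
          exact hout z hzM x (hTM x hxT) y hyM
        · exfalso
          apply hna
          rw [← hout z' hzM' u huM y hyM, ← hx u huE, hout z hzM u huM y hyM]
          exact ha
    have t1 : y1 ∈ T := by rw [hT]; simp
    have t2 : y2 ∈ T := by rw [hT]; simp
    have t3 : y3 ∈ T := by rw [hT]; simp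
    have s1 : S1 ⊆ T := by
      rw [hT]; intro x hx; simp [hx]
    have s2 : S2 ⊆ T := by
      rw [hT]; intro x hx; simp [hx]
    have s3 : S3 ⊆ T := by
      rw [hT]; intro x hx; simp [hx]
    have c1 : ∀ z ∈ M, z ∉ T → ∀ z' ∈ M, z' ∉ T → (∀ x ∈ S1, (G.Adj x z ↔ G.Adj x z')) →
        G.Adj y1 z → G.Adj y1 z' := fun z hz hzT z' hz' hzT' hx ha =>
      hc1 z hz (fun h => hzT (h ▸ t1)) (fun h => hzT (s1 h)) z' hz' (fun h => hzT' (h ▸ t1))
        (fun h => hzT' (s1 h)) hx ha
    have c2 : ∀ z ∈ M, z ∉ T → ∀ z' ∈ M, z' ∉ T → (∀ x ∈ S2, (G.Adj x z ↔ G.Adj x z')) →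
        G.Adj y2 z → G.Adj y2 z' := fun z hz hzT z' hz' hzT' hx ha =>
      hc2 z ⟨hz, fun h => hzT (h ▸ t1)⟩ (fun h => hzT (h ▸ t2)) (fun h => hzT (s2 h)) z'
        ⟨hz', fun h => hzT' (h ▸ t1)⟩ (fun h => hzT' (h ▸ t2)) (fun h => hzT' (s2 h)) hx ha
    have c3 : ∀ z ∈ M, z ∉ T → ∀ z' ∈ M, z' ∉ T → (∀ x ∈ S3, (G.Adj x z ↔ G.Adj x z')) →
        G.Adj y3 z → G.Adj y3 z' := by
      intro z hz hzT z' hz' hzT' hx ha
      have k1 : z ∉ ({y1, y2} : Set V) := by
        rintro (h | h)
        · exact hzT (h ▸ t1)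
        · exact hzT (h ▸ t2)
      have k2 : z' ∉ ({y1, y2} : Set V) := by
        rintro (h | h)
        · exact hzT' (h ▸ t1)
        · exact hzT' (h ▸ t2)
      exact hc3 z ⟨hz, k1⟩ (fun h => hzT (h ▸ t3)) (fun h => hzT (s3 h)) z' ⟨hz', k2⟩
        (fun h => hzT' (h ▸ t3)) (fun h => hzT' (s3 h)) hx ha
    -- two equal types are contradictory
    have pair : ∀ (yi yj : V) (S : Finset V), yi ≠ yj → yi ∈ T → yj ∈ T → S ⊆ T → yi ∉ S →
        yj ∉ S → True →
        (∀ z ∈ M, z ∉ T → ∀ z' ∈ M, z' ∉ T → (∀ x ∈ S, (G.Adj x z ↔ G.Adj x z')) →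
          G.Adj yj z → G.Adj yj z') →
        ∀ (zi zj : V) (t : Prop), zi ∈ M → zi ∉ T → zj ∈ M → zj ∉ T →
        (∀ x ∈ T, x ≠ yi → (G.Adj x zi ↔ t)) → (∀ x ∈ T, x ≠ yj → (G.Adj x zj ↔ t)) →
        ¬ (G.Adj yj zj ↔ t) → False := by
      intro yi yj S hne hi hj hST hiS hjS _ hcS zi zj t hzi hziT hzj hzjT h1 h2 h3
      have e1 : ∀ x ∈ S, (G.Adj x zi ↔ G.Adj x zj) := by
        intro x hx
        rw [h1 x (hST hx) (fun h => hiS (h ▸ hx)), h2 x (hST hx) (fun h => hjS (h ▸ hx))]
      have e2 : G.Adj yj zi ↔ t := h1 yj hj hne.symm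
      apply h3
      constructor
      · intro ha
        rw [← e2]
        exact hcS zj hzj hzjT zi hzi hziT (fun x hx => (e1 x hx).symm) ha
      · intro ht
        exact hcS zi hzi hziT zj hzj hzjT e1 (e2.2 ht)
    by_contra hcon
    push Not at hcon
    obtain ⟨z1, hz1, hz1T, p1, q1, r1⟩ := hfail y1 t1 (fun S hS => hcon y1 S hS) y2 t2 n12.symm
      S1 s1 hyS1 c1
    obtain ⟨z2, hz2, hz2T, p2, q2, r2⟩ := hfail y2 t2 (fun S hS => hcon y2 S hS) y1 t1 n12
      S2 s2 hyS2 c2
    obtain ⟨z3, hz3, hz3T, p3, q3, r3⟩ := hfail y3 t3 (fun S hS => hcon y3 S hS) y1 t1 n13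
      S3 s3 hyS3 c3
    have i12 : y1 ∉ S2 := fun h => (hS2M y1 h).2 rfl
    have i13 : y1 ∉ S3 := fun h => (hS3M y1 h).2 (Or.inl rfl)
    have i23 : y2 ∉ S3 := fun h => (hS3M y2 h).2 (Or.inr rfl)
    by_cases k12 : (p1 ↔ p2)
    · exact pair y1 y2 S2 n12 t1 t2 s2 i12 hyS2 trivial c2 z1 z2 p2 hz1 hz1T hz2 hz2T
        (fun x hx hxy => (q1 x hx hxy).trans k12) q2 r2
    · by_cases k13 : (p1 ↔ p3)
      · exact pair y1 y3 S3 n13 t1 t3 s3 i13 hyS3 trivial c3 z1 z3 p3 hz1 hz1T hz3 hz3T
          (fun x hx hxy => (q1 x hx hxy).trans k13) q3 r3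
      · have k23 : (p2 ↔ p3) := by tauto
        exact pair y2 y3 S3 n23 t2 t3 s3 i23 hyS3 trivial c3 z2 z3 p3 hz2 hz2T hz3 hz3T
          (fun x hx hxy => (q2 x hx hxy).trans k23) q3 r3
  · -- twins
    obtain ⟨a, ha, b, hb, hab⟩ := hM2
    have hM' : ∀ z ∈ M, z = a ∨ z = b := by
      intro z hz
      by_contra hcon
      push Not at hcon
      exact h3 ⟨a, ha, b, hb, z, hz, hab, hcon.1.symm, hcon.2.symm⟩
    refine ⟨a, {b}, by rw [Finset.card_singleton]; omega, Set.mem_univ _,
      fun _ _ => Set.mem_univ _, by simpa using hab, ?_⟩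
    intro z _ hza hzb z' _ hza' hzb' hx haz
    rw [Finset.mem_singleton] at hzb hzb'
    have o1 : z ∉ M := fun h => (hM' z h).elim hza hzb
    have o2 : z' ∉ M := fun h => (hM' z' h).elim hza' hzb'
    rw [hout z' o2 a ha b hb, ← hx b (Finset.mem_singleton_self b), hout z o1 b hb a ha]
    exact haz

/-- the quantitative form -/
theorem bound (X : (V : Type) → SimpleGraph V → Prop) (hX : Hereditary X) (k : ℕ)
    (h : BoundedBy k (fun V G => X V G ∧ IsPrime G)) : BoundedBy (3 * k + 2) X := by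
  intro V _ G hG
  rw [functionality_le]
  intro W hW
  have hXW : X W (G.induce W) := hX V W G _ ⟨SimpleGraph.Embedding.induce W⟩ hG
  -- it is enough to find the vertex in the graph `H = G[W]`
  suffices hs : ∃ y, ∃ S : Finset W, S.card ≤ 3 * k + 2 ∧ Cg (G.induce W) Set.univ y S by
    obtain ⟨y, S, hS, hC⟩ := hs
    refine ⟨y.1, S.map (Function.Embedding.subtype _), by rw [card_map]; exact hS, ?_⟩
    have := cg_induce G W Set.univ y S hC
    rwa [Set.image_univ, Subtype.range_coe] at this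
  obtain ⟨H, hH⟩ : ∃ H : SimpleGraph W, H = G.induce W := ⟨_, rfl⟩
  rw [← hH] at hXW ⊢
  rcases subsingleton_or_nontrivial W with hsub | hnt
  · obtain ⟨y, hy⟩ := hW
    refine ⟨⟨y, hy⟩, ∅, by simp, Set.mem_univ _, by simp, by simp, ?_⟩
    intro z _ hz
    exact absurd (Subsingleton.elim z ⟨y, hy⟩) hz
  · obtain ⟨M, hM⟩ := (Set.toFinite {M : Set W | IsModule H M ∧ M.Nontrivial}).exists_minimal
      ⟨Set.univ, fun v hv => absurd (Set.mem_univ v) hv, Set.nontrivial_univ⟩
    have hmod : IsModule H M := hM.prop.1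
    have hmin : ∀ N : Set W, IsModule H N → N.Nontrivial → N ⊆ M → N = M :=
      fun N h1 h2 h3 => Set.Subset.antisymm h3 (hM.le_of_le ⟨h1, h2⟩ h3)
    refine three H hmod hM.prop.2 k fun U hU hUne => ?_
    have h1 : functionality (H.induce M) ≤ k :=
      h M (H.induce M) ⟨hX W M H _ ⟨SimpleGraph.Embedding.induce M⟩ hXW,
        prime_of_minimal H hmod hmin⟩
    rw [functionality_le] at h1
    obtain ⟨u, hu⟩ := hUne
    obtain ⟨y, S, hS, hC⟩ := h1 (Subtype.val ⁻¹' U) ⟨⟨u, hU hu⟩, hu⟩
    refine ⟨y.1, S.map (Function.Embedding.subtype _), by rw [card_map]; exact hS, ?_⟩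
    have := cg_induce H M _ y S hC
    rwa [Subtype.image_preimage_coe, Set.inter_eq_right.2 hU] at this

/-- **The question is answered in the affirmative**: if the prime graphs of a hereditary class of
finite graphs have bounded functionality, then all graphs of the class have bounded functionality.
More precisely, if the prime graphs have functionality at most `k`, all graphs have functionality at
most `3 k + 2`. -/
theorem result (X : (V : Type) → SimpleGraph V → Prop) (hX : Hereditary X) :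
    ((∃ k, BoundedBy k (fun V G => X V G ∧ IsPrime G)) → ∃ k, BoundedBy k X) ∧
    ∀ k, BoundedBy k (fun V G => X V G ∧ IsPrime G) → BoundedBy (3 * k + 2) X :=
  ⟨fun ⟨k, hk⟩ => ⟨3 * k + 2, bound X hX k hk⟩, fun k hk => bound X hX k hk⟩

end Pool.Agent.Results.MP_42f001_co.PrimeGraphsSuffice
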